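import Mathlib
import Pool.Agent.Q91.LI.Fin

/-!
# The Liouville and Moebius functions at almost all polynomials of each degree, complete range

For every degree `d` and every `A`, all but a proportion `(log H) ^ (-A)` of the integer polynomials `f` of
degree `d` with coefficients up to `H` satisfy, with a saving `(log H) ^ A` over the length, Chowla's
conjecture in ALL arithmetic progressions of difference `N ≤ (log H) ^ A` and on ALL intervals `|v| ≤ X` with
`(log H) ^ B ≤ X ≤ H / (log H) ^ B`.

Method: second moment over all coefficients by the circle method (modules `Pool/Agent/H300R2/FB` of the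
starting files for `X ≥ H ^ ε`, `Pool/Agent/Q91/BX` for the complete range), Davenport's estimate for the
exponential sums of the Liouville and Moebius functions (`Pool/Agent/H373R2/T7/SupLiou` of the starting
files), and restriction to progressions by passing to the sublattice of the polynomials `f (N X + s)`.
-/

set_option autoImplicit false

namespace Pool.Agent.Results.MP_d639b3_nt.AlmostAllPolynomials

open Finset Polynomial

/-- The polynomial with the coefficients `c 0, ..., c d`. -/
noncomputable def poly {d : ℕ} (c : Fin (d + 1) → ℤ) : ℤ[X] := ∑ i : Fin (d + 1), C (c i) * X ^ (i : ℕ)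

/-- The coefficient vectors of height at most `H` with positive leading coefficient: `|c i| ≤ H` for all `i`
and `1 ≤ c d`. -/
noncomputable def Box (d H : ℕ) : Finset (Fin (d + 1) → ℤ) :=
  (Fintype.piFinset (fun _ => Icc (-(H : ℤ)) H)).filter (fun c => 1 ≤ c (Fin.last d))

/-- Liouville's function `(-1) ^ Ω(|m|)` at the integers `m ≠ 0`, and `0` at `m = 0`. -/
noncomputable def lam (m : ℤ) : ℝ :=
  if m = 0 then 0 else (-1) ^ (ArithmeticFunction.cardFactors m.natAbs)

/-- The Moebius function `μ(|m|)` at the integers `m ≠ 0`, and `0` at `m = 0`. -/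
noncomputable def mob (m : ℤ) : ℝ := if m = 0 then 0 else ((ArithmeticFunction.moebius m.natAbs : ℤ) : ℝ)

lemma box_eq (d H : ℕ) : Box d H = Pool.Agent.TH892.box d H := by
  unfold Box Pool.Agent.TH892.box
  ext c
  rw [mem_filter, Fintype.mem_piFinset, Fintype.mem_piFinset]
  constructor
  · rintro ⟨h1, h2⟩ i
    by_cases hi : (i : ℕ) = d
    · rw [if_pos hi, mem_Icc]
      have h3 := h1 i
      rw [mem_Icc] at h3
      have h4 : i = Fin.last d := Fin.ext hi
      subst h4
      exact ⟨h2, h3.2⟩
    · rw [if_neg hi]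
      exact h1 i
  · intro h
    have hl := h (Fin.last d)
    rw [if_pos (Fin.val_last d), mem_Icc] at hl
    refine ⟨fun i => ?_, hl.1⟩
    by_cases hi : (i : ℕ) = d
    · have h4 : i = Fin.last d := Fin.ext hi
      subst h4
      rw [mem_Icc]
      omega
    · have h3 := h i
      rwa [if_neg hi] at h3

/-- **Chowla's conjecture for almost all polynomials, complete range, all progressions.** -/
theorem result (d : ℕ) (hd : 1 ≤ d) (A : ℕ) (g : ℤ → ℝ) (hg : g = lam ∨ g = mob) :
    ∃ B H₀ : ℕ, ∀ H : ℕ, H₀ ≤ H →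
    ∃ Bad ⊆ Box d H, (Bad.card : ℝ) ≤ ((Box d H).card : ℝ) / Real.log H ^ A ∧
    ∀ c ∈ Box d H, c ∉ Bad →
      ∀ X : ℕ, Real.log H ^ B ≤ X → (X : ℝ) * Real.log H ^ B ≤ H →
      ∀ N : ℕ, 1 ≤ N → (N : ℝ) ≤ Real.log H ^ A → ∀ a : ℤ,
        |∑ v ∈ (Icc (-(X : ℤ)) X).filter (fun v : ℤ => v ≡ a [ZMOD N]), g ((poly c).eval v)| ≤
          X / Real.log H ^ A := by
  have key : ∃ h : ℕ → ℝ, (∀ n, |h n| ≤ 1) ∧
      Pool.Agent.H373R2.T7.SupSmall (fun n => (h n : ℂ)) ∧ ∀ m, g m = Pool.Agent.Q91.LI.hz h m := by
    rcases hg with hg | hg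
    · refine ⟨fun n => (-1) ^ (ArithmeticFunction.cardFactors n), fun n => ?_, ?_, fun m => ?_⟩
      · rw [abs_pow, abs_neg, abs_one, one_pow]
      · have h1 : (fun n => (((-1 : ℝ) ^ (ArithmeticFunction.cardFactors n) : ℝ) : ℂ)) =
            Pool.Agent.H373R2.T7.liR := by
          funext n
          unfold Pool.Agent.H373R2.T7.liR
          push_cast
          rfl
        show Pool.Agent.H373R2.T7.SupSmall
          (fun n => (((-1 : ℝ) ^ (ArithmeticFunction.cardFactors n) : ℝ) : ℂ))
        rw [h1]
        exact Pool.Agent.H373R2.T7.sup_liou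
      · rw [hg]
        rfl
    · refine ⟨fun n => ((ArithmeticFunction.moebius n : ℤ) : ℝ), fun n => ?_, ?_, fun m => ?_⟩
      · have h1 := ArithmeticFunction.abs_moebius_le_one (n := n)
        have h2 : ((|ArithmeticFunction.moebius n| : ℤ) : ℝ) ≤ ((1 : ℤ) : ℝ) := by exact_mod_cast h1
        push_cast at h2
        exact h2
      · have h1 : (fun n => (((ArithmeticFunction.moebius n : ℤ) : ℝ) : ℂ)) =
            Pool.Agent.H373R2.T7.muC := by
          funext n
          unfold Pool.Agent.H373R2.T7.muC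
          push_cast
          rfl
        show Pool.Agent.H373R2.T7.SupSmall (fun n => (((ArithmeticFunction.moebius n : ℤ) : ℝ) : ℂ))
        rw [h1]
        exact Pool.Agent.H373R2.T7.sup_muC
      · rw [hg]
        rfl
  obtain ⟨h, hb, hs, hgh⟩ := key
  obtain ⟨B, H₀, hB⟩ := Pool.Agent.Q91.LI.finL d hd A h hb hs
  refine ⟨B, H₀, fun H hH => ?_⟩
  rw [box_eq]
  obtain ⟨Bad, h1, h2, h3⟩ := hB H hH
  refine ⟨Bad, h1, h2, fun c hc hcB X hX1 hX2 N hN1 hN2 a => ?_⟩
  have h4 := h3 c hc hcB X hX1 hX2 N hN1 hN2 a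
  refine le_trans (le_of_eq ?_) h4
  congr 1
  exact sum_congr rfl fun v _ => hgh _

end Pool.Agent.Results.MP_d639b3_nt.AlmostAllPolynomials
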