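import Pool.Agent.Q163.HC.Sav

set_option autoImplicit false

/-!
# All squarefree binary forms for almost every completely multiplicative twist

Let `χ` be the completely multiplicative function with independent fair signs at the primes. For almost
every `χ`, and all `χ'` equal to `χ` at all but finitely many primes, the function `λ χ'` satisfies the
conjecture of the problem for `h = 2` and squarefree binary forms of EVERY degree, with a power saving on
every row, uniformly in the form, the lattice and the region.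
-/

namespace Pool.Agent.Results.MP_d639b3_nt.BinaryFormTwists

open Finset Filter Topology MeasureTheory Pool.Agent.Q163.RP Pool.Agent.Q163.RX
  Pool.Agent.Q163.GC Pool.Agent.Q163.HC

/-- the completely multiplicative function with the value `1` or `-1` at the prime `p` according to
`ω p` -/
noncomputable def chi (ω : ℕ → Bool) (n : ℕ) : ℝ :=
  ∏ p ∈ n.primeFactors, (if ω p = true then 1 else -1) ^ n.factorization p

/-- the Liouville function on the integers, `0` at `0` -/
noncomputable def lam (n : ℤ) : ℝ :=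
  if n = 0 then 0 else (-1) ^ ArithmeticFunction.cardFactors n.natAbs

/-- the function `λ χ` on the integers -/
noncomputable def tw (ω : ℕ → Bool) (n : ℤ) : ℝ := lam n * chi ω n.natAbs

/-- the value of `F` at `(u, v)` -/
noncomputable def at2 (F : MvPolynomial (Fin 2) ℤ) (u v : ℤ) : ℤ := MvPolynomial.eval ![u, v] F

/-- squarefree binary forms of degree `d ≥ 1` -/
def SqForm (d : ℕ) (F : MvPolynomial (Fin 2) ℤ) : Prop :=
  F.IsHomogeneous d ∧ 1 ≤ d ∧ Squarefree (MvPolynomial.map (Int.castRingHom ℚ) F)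

/-- squarefree binary forms of degree `d` not proportional to the second variable, with coefficients up
to `X ^ A` -/
def Adm (d A X : ℕ) (F : MvPolynomial (Fin 2) ℤ) : Prop :=
  SqForm d F ∧ (∃ m ∈ F.support, m 0 ≠ 0) ∧ ∀ m, |F.coeff m| ≤ (X : ℤ) ^ A

/-- the statement of the problem for `h = 2` and a function `g` in place of the Liouville function -/
def Chowla2 (g : ℤ → ℝ) : Prop :=
  ∀ (d : ℕ) (F : MvPolynomial (Fin 2) ℤ), SqForm d F → ∀ (a b : ℤ) (N : ℕ), 1 ≤ N →
    Tendsto (fun X : ℕ => (∑ p ∈ (Icc (-(X : ℤ)) X ×ˢ Icc (-(X : ℤ)) X).filter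
      (fun p : ℤ × ℤ => p.1 % N = a % N ∧ p.2 % N = b % N), g (at2 F p.1 p.2)) / (X : ℝ) ^ 2)
      atTop (𝓝 0)

/-- power saving on every row, uniform in the form, the row and the progression -/
def RowSaving (g : ℤ → ℝ) : Prop :=
  ∀ (d A : ℕ) (ε : ℝ), 0 < ε → ∀ᶠ X : ℕ in atTop, ∀ (F : MvPolynomial (Fin 2) ℤ) (v b : ℤ) (q L : ℕ),
    Adm d A X F → v ≠ 0 → |v| ≤ (X : ℤ) ^ A → |b| ≤ (X : ℤ) ^ A → 1 ≤ q → q ≤ X ^ A → L ≤ X →
      |∑ k ∈ Icc 1 L, g (at2 F (b + q * (k : ℤ)) v)| ≤ (L : ℝ) ^ (3 / 4 : ℝ) * (X : ℝ) ^ ε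

/-- power saving in all regions of `[-X, X] ^ 2` with horizontal sections `[α v, β v]` and all
translated lattices, uniform in the form -/
def RegionSaving (g : ℤ → ℝ) : Prop :=
  ∀ (d A : ℕ) (ε : ℝ), 0 < ε → ∀ᶠ X : ℕ in atTop, ∀ (F : MvPolynomial (Fin 2) ℤ) (a b : ℤ) (N : ℕ)
    (α β : ℤ → ℤ), Adm d A X F → 1 ≤ N → N ≤ X → (∀ v, -(X : ℤ) ≤ α v ∧ α v ≤ X ∧ β v ≤ X) →
      |∑ v ∈ (Icc (-(X : ℤ)) X).filter (fun v => v % N = b % N),
        ∑ u ∈ (Icc (α v) (β v)).filter (fun u => u % N = a % N), g (at2 F u v)| ≤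
        ((X : ℝ) / N) ^ (7 / 4 : ℝ) * (X : ℝ) ^ ε

lemma ch_eq (ω : ℕ → Bool) (n : ℕ) : ch ω n = chi ω n := by
  unfold ch chi mult sg es sgn
  refine Finset.prod_congr rfl fun p _ => ?_
  rw [if_pos (Set.mem_univ p)]

lemma abs_lam (n : ℤ) : |lam n| ≤ 1 := by
  unfold lam
  split_ifs
  · rw [abs_zero]
    exact zero_le_one
  · rw [abs_pow, abs_neg, abs_one, one_pow]

lemma abs_tw (ω : ℕ → Bool) (n : ℤ) : |tw ω n| ≤ 1 := by
  unfold tw
  rw [abs_mul, ← ch_eq, abs_ch, mul_one]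
  exact abs_lam n

theorem row_saving (g : ℤ → ℝ) (hg : Savi g) : RowSaving g := by
  intro d A ε hε
  filter_upwards [hg d (A + A * d) ε hε, eventually_ge_atTop 1] with X hX hX1
  intro F v b q L hF hv hvX hb hq1 hq2 hL
  obtain ⟨⟨h1, h2, h3⟩, h4, h5⟩ := hF
  have hvQ : (v : ℚ) ≠ 0 := by exact_mod_cast hv
  have hrm := row_map (Int.castRingHom ℚ) F v
  have hinj : Function.Injective (Int.castRingHom ℚ) := Int.cast_injective
  obtain ⟨h6, h7, h8⟩ := row_sep (MvPolynomial.map (Int.castRingHom ℚ) F) d (h1.map _) h3 v hvQ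
  rw [eq_intCast] at hrm
  rw [← hrm] at h6
  have hle : X ^ A ≤ X ^ (A + A * d) := Nat.pow_le_pow_right hX1 (by omega)
  have hle' : (X : ℤ) ^ A ≤ (X : ℤ) ^ (A + A * d) := by exact_mod_cast hle
  have h9 := hX (row F v) b q L ⟨h6.squarefree, row_deg F d h1 h4 v hv, row_natDegree_le F d h1 v,
    fun i => by
      have h10 := row_coeff_le F d h1 (X ^ A) (fun m => by push_cast; exact h5 m) v (X ^ A)
        (Nat.one_le_pow _ _ (by omega)) (by push_cast; exact hvX) i
      refine h10.trans (le_of_eq ?_)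
      push_cast
      ring, hb.trans hle', hq1, hq2.trans hle, hL⟩
  refine le_trans (le_of_eq ?_) h9
  congr 1
  refine sum_congr rfl fun k _ => ?_
  rw [row_eval]
  rfl

theorem region_saving (g : ℤ → ℝ) (hb1 : ∀ n, |g n| ≤ 1) (hg : RowSaving g) : RegionSaving g := by
  intro d A ε hε
  have hlarge : ∀ᶠ X : ℕ in atTop, 18 * (3 : ℝ) ^ (ε / 2) ≤ (X : ℝ) ^ (ε / 2) :=
    ((tendsto_rpow_atTop (by positivity)).comp tendsto_natCast_atTop_atTop).eventually_ge_atTop _
  have h3X : Tendsto (fun X : ℕ => 3 * X) atTop atTop :=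
    tendsto_id.const_mul_atTop' (by norm_num)
  filter_upwards [h3X.eventually (hg d (A + 1) (ε / 2) (by positivity)), hlarge,
    eventually_ge_atTop 1] with X hX hXl hX1
  intro F a b N α β hF hN1 hN2 hαβ
  obtain ⟨hF1, hF2, hF3⟩ := hF
  have hXX : (1 : ℝ) ≤ X := by exact_mod_cast hX1
  have hNN : (1 : ℝ) ≤ N := by exact_mod_cast hN1
  have hNX : (N : ℝ) ≤ X := by exact_mod_cast hN2
  have hp1 : X ≤ (3 * X) ^ (A + 1) := by
    calc X ≤ 3 * X := by omega
      _ = (3 * X) ^ 1 := (pow_one _).symm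
      _ ≤ (3 * X) ^ (A + 1) := Nat.pow_le_pow_right (by omega) (by omega)
  have hp2 : 2 * X ≤ (3 * X) ^ (A + 1) := by
    calc 2 * X ≤ 3 * X := by omega
      _ = (3 * X) ^ 1 := (pow_one _).symm
      _ ≤ (3 * X) ^ (A + 1) := Nat.pow_le_pow_right (by omega) (by omega)
  have hp3 : X ^ A ≤ (3 * X) ^ (A + 1) :=
    (Nat.pow_le_pow_left (by omega) A).trans (Nat.pow_le_pow_right (by omega) (by omega))
  have hF' : Adm d (A + 1) (3 * X) F := ⟨hF1, hF2, fun m => (hF3 m).trans (by exact_mod_cast hp3)⟩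
  set M0 : ℝ := (2 * X + N) / N with hM0
  have hM1 : 1 ≤ M0 := by
    rw [hM0, le_div_iff₀ (by linarith)]
    linarith
  set E : ℝ := ((3 * X : ℕ) : ℝ) ^ (ε / 2) with hE
  have hE1 : 1 ≤ E := Real.one_le_rpow (by push_cast; linarith) (by positivity)
  have hLM : ∀ L : ℕ, (L : ℤ) * N ≤ 2 * X + N → (L : ℝ) ≤ M0 := by
    intro L hL
    rw [hM0, le_div_iff₀ (by linarith)]
    exact_mod_cast hL
  have hrow : ∀ v ∈ (Icc (-(X : ℤ)) X).filter (fun v => v % N = b % N),
      |∑ u ∈ (Icc (α v) (β v)).filter (fun u => u % N = a % N), g (at2 F u v)| ≤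
        M0 ^ (3 / 4 : ℝ) * E + (if v = 0 then M0 else 0) := by
    intro v hv
    obtain ⟨b', L, h1, h2, h3⟩ := class_int (fun u => g (at2 F u v)) (α v) (β v) X (hαβ v).1
      (hαβ v).2.2 a N hN1 (hαβ v).2.1
    rw [h3]
    have h4 := hLM L h2
    split_ifs with hv0
    · refine le_trans ?_ (le_add_of_nonneg_left (by positivity))
      refine (abs_sum_le_sum_abs _ _).trans ((sum_le_sum fun k _ => hb1 _).trans ?_)
      rw [sum_const, Nat.card_Icc, nsmul_eq_mul, mul_one, Nat.add_sub_cancel]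
      exact h4
    · rw [add_zero]
      have hv' := mem_Icc.1 (mem_filter.1 hv).1
      have hL3 : L ≤ 3 * X := by
        have h5 : (L : ℤ) * N ≤ 3 * X * N := by
          have : (X : ℤ) ≤ X * N := by
            have : (1 : ℤ) ≤ N := by exact_mod_cast hN1
            nlinarith
          have h6 : (N : ℤ) ≤ X * N := by
            have h7 : (1 : ℤ) ≤ X := by exact_mod_cast hX1
            have h8 : (0 : ℤ) ≤ N := by positivity
            nlinarith
          linarith
        have h6 : (L : ℤ) ≤ 3 * X := le_of_mul_le_mul_right h5 (by exact_mod_cast hN1)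
        exact_mod_cast h6
      have h5 := hX F v b' N L hF' hv0 ?_ ?_ hN1 (hN2.trans hp1) hL3
      · refine h5.trans (mul_le_mul_of_nonneg_right ?_ (by positivity))
        exact Real.rpow_le_rpow (by positivity) h4 (by norm_num)
      · refine (abs_le.2 hv').trans ?_
        exact_mod_cast hp1
      · refine h1.trans ?_
        have h6 : X + N ≤ (3 * X) ^ (A + 1) := by omega
        exact_mod_cast h6
  have hcard : (((Icc (-(X : ℤ)) X).filter (fun v => v % N = b % N)).card : ℝ) ≤ M0 := by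
    obtain ⟨b', L, h1, h2, h3⟩ := class_int (fun _ => 1) (-(X : ℤ)) X X le_rfl le_rfl b N hN1
      (by omega)
    rw [sum_const, sum_const, Nat.card_Icc, nsmul_eq_mul, nsmul_eq_mul, mul_one, mul_one,
      Nat.add_sub_cancel] at h3
    rw [h3]
    exact hLM L h2
  have h1 := (abs_sum_le_sum_abs _ _).trans (sum_le_sum hrow)
  refine h1.trans ?_
  rw [sum_add_distrib, sum_const, nsmul_eq_mul]
  have h2 : ∑ v ∈ (Icc (-(X : ℤ)) X).filter (fun v => v % N = b % N), (if v = 0 then M0 else 0) ≤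
      M0 := by
    rw [sum_ite_eq']
    split_ifs
    · exact le_rfl
    · linarith
  have h3 : (((Icc (-(X : ℤ)) X).filter (fun v => v % N = b % N)).card : ℝ) *
      (M0 ^ (3 / 4 : ℝ) * E) ≤ M0 ^ (7 / 4 : ℝ) * E := by
    have h4 : M0 ^ (7 / 4 : ℝ) = M0 * M0 ^ (3 / 4 : ℝ) := by
      nth_rewrite 2 [← Real.rpow_one M0]
      rw [← Real.rpow_add (by linarith)]
      norm_num
    rw [h4, mul_assoc]
    exact mul_le_mul_of_nonneg_right hcard (by positivity)
  have h4 : M0 ≤ M0 ^ (7 / 4 : ℝ) * E := by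
    have h5 : M0 ≤ M0 ^ (7 / 4 : ℝ) := by
      nth_rewrite 1 [← Real.rpow_one M0]
      exact Real.rpow_le_rpow_of_exponent_le hM1 (by norm_num)
    have : 0 ≤ M0 ^ (7 / 4 : ℝ) := by positivity
    nlinarith
  have h5 : M0 ≤ 3 * ((X : ℝ) / N) := by
    rw [hM0, ← mul_div_assoc, div_le_div_iff_of_pos_right (by linarith)]
    linarith
  have h6 : M0 ^ (7 / 4 : ℝ) ≤ 9 * ((X : ℝ) / N) ^ (7 / 4 : ℝ) := by
    refine (Real.rpow_le_rpow (by linarith) h5 (by norm_num)).trans ?_
    rw [Real.mul_rpow (by norm_num) (by positivity)]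
    refine mul_le_mul_of_nonneg_right ?_ (by positivity)
    calc (3 : ℝ) ^ (7 / 4 : ℝ) ≤ (3 : ℝ) ^ (2 : ℝ) :=
          Real.rpow_le_rpow_of_exponent_le (by norm_num) (by norm_num)
      _ = 9 := by norm_num
  have h7 : E = (3 : ℝ) ^ (ε / 2) * (X : ℝ) ^ (ε / 2) := by
    rw [hE]
    push_cast
    rw [Real.mul_rpow (by norm_num) (by positivity)]
  have h8 : (X : ℝ) ^ ε = (X : ℝ) ^ (ε / 2) * (X : ℝ) ^ (ε / 2) := by
    rw [← Real.rpow_add (by linarith)]
    congr 1
    ring
  have hXe : 0 < (X : ℝ) ^ (ε / 2) := by positivity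
  have hXN : 0 ≤ ((X : ℝ) / N) ^ (7 / 4 : ℝ) := by positivity
  calc _ ≤ M0 ^ (7 / 4 : ℝ) * E + M0 ^ (7 / 4 : ℝ) * E := by linarith
    _ = 2 * M0 ^ (7 / 4 : ℝ) * E := by ring
    _ ≤ 2 * (9 * ((X : ℝ) / N) ^ (7 / 4 : ℝ)) * E :=
        mul_le_mul_of_nonneg_right (by linarith) (by positivity)
    _ = ((X : ℝ) / N) ^ (7 / 4 : ℝ) * ((18 * (3 : ℝ) ^ (ε / 2)) * (X : ℝ) ^ (ε / 2)) := by
        rw [h7]
        ring
    _ ≤ ((X : ℝ) / N) ^ (7 / 4 : ℝ) * ((X : ℝ) ^ (ε / 2) * (X : ℝ) ^ (ε / 2)) :=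
        mul_le_mul_of_nonneg_left (mul_le_mul_of_nonneg_right hXl hXe.le) hXN
    _ = _ := by rw [h8]

lemma coeff_bound (F : MvPolynomial (Fin 2) ℤ) : ∃ H : ℕ, ∀ m, |F.coeff m| ≤ (H : ℤ) := by
  refine ⟨∑ i ∈ F.support, (F.coeff i).natAbs, fun i => ?_⟩
  by_cases hi : i ∈ F.support
  · have := single_le_sum (f := fun i => (F.coeff i).natAbs) (fun i _ => Nat.zero_le _) hi
    rw [← Int.natCast_natAbs]
    exact_mod_cast this
  · rw [MvPolynomial.notMem_support_iff.1 hi, abs_zero]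
    positivity

/-- a squarefree form without the first variable is linear -/
lemma linear_form (d : ℕ) (F : MvPolynomial (Fin 2) ℤ) (hF : SqForm d F)
    (h : ¬ ∃ m ∈ F.support, m 0 ≠ 0) : ∃ c : ℤ, c ≠ 0 ∧ ∀ u v, at2 F u v = c * v := by
  obtain ⟨h1, h2, h3⟩ := hF
  push Not at h
  have hF0 : F ≠ 0 := by
    rintro rfl
    exact h3.ne_zero (by simp)
  have h4 := (row_one _ d (h1.map (Int.castRingHom ℚ)) h3).2.2
  have h5 : ∀ m ∈ F.support, m = Finsupp.single 1 d := by
    intro m hm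
    have h6 := h1.degree_eq_sum_deg_support hm
    have h7 : ∑ j ∈ m.support, m j = ∑ j : Fin 2, m j := by
      refine sum_subset (subset_univ _) fun j _ hj => ?_
      exact Finsupp.notMem_support_iff.1 hj
    rw [h7, Fin.sum_univ_two, h m hm, zero_add] at h6
    ext j
    fin_cases j
    · simp [h m hm]
    · simp [h6]
  have h6 : F = MvPolynomial.monomial (Finsupp.single 1 d) (F.coeff (Finsupp.single 1 d)) := by
    ext m
    rw [MvPolynomial.coeff_monomial]
    split_ifs with h7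
    · rw [h7]
    · rw [MvPolynomial.notMem_support_iff.1 fun h8 => h7 (h5 m h8).symm]
  set c := F.coeff (Finsupp.single 1 d) with hc
  have hc0 : c ≠ 0 := by
    intro h7
    rw [h7, map_zero] at h6
    exact hF0 h6
  have h7 : row (MvPolynomial.map (Int.castRingHom ℚ) F) 1 = Polynomial.C (c : ℚ) := by
    rw [h6]
    unfold row
    rw [MvPolynomial.map_monomial, MvPolynomial.eval₂_monomial]
    simp
  rw [h7, Polynomial.natDegree_C] at h4
  have hd : d = 1 := by omega
  refine ⟨c, hc0, fun u v => ?_⟩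
  unfold at2
  rw [h6, MvPolynomial.eval_monomial, hd]
  simp

theorem chowla2 (g : ℤ → ℝ) (hg : Savi g) (hr : RegionSaving g) : Chowla2 g := by
  intro d F hF a b N hN
  have e1 : ∀ X : ℕ, ∑ p ∈ (Icc (-(X : ℤ)) X ×ˢ Icc (-(X : ℤ)) X).filter
      (fun p : ℤ × ℤ => p.1 % N = a % N ∧ p.2 % N = b % N), g (at2 F p.1 p.2) =
      ∑ v ∈ (Icc (-(X : ℤ)) X).filter (fun v => v % N = b % N),
        ∑ u ∈ (Icc (-(X : ℤ)) X).filter (fun u => u % N = a % N), g (at2 F u v) := by
    intro X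
    rw [filter_product (fun x : ℤ => x % N = a % N) (fun y : ℤ => y % N = b % N),
      sum_product_right]
  simp_rw [e1]
  obtain ⟨H, hH⟩ := coeff_bound F
  by_cases hU : ∃ m ∈ F.support, m 0 ≠ 0
  · have h1 := hr d 1 (1 / 8) (by norm_num)
    have h2 : ∀ᶠ X : ℕ in atTop, |(∑ v ∈ (Icc (-(X : ℤ)) X).filter (fun v => v % N = b % N),
        ∑ u ∈ (Icc (-(X : ℤ)) X).filter (fun u => u % N = a % N), g (at2 F u v)) / (X : ℝ) ^ 2| ≤
        (X : ℝ) ^ (-(1 / 8) : ℝ) := by
      filter_upwards [h1, eventually_ge_atTop H, eventually_ge_atTop N, eventually_ge_atTop 1]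
        with X hX1 hX2 hX3 hX4
      have hX0 : (0 : ℝ) < X := by exact_mod_cast hX4
      have h3 := hX1 F a b N (fun _ => -(X : ℤ)) (fun _ => X) ⟨hF, hU, fun m => (hH m).trans (by
        rw [pow_one]
        exact_mod_cast hX2)⟩ hN hX3 (fun v => ⟨le_rfl, by omega, le_rfl⟩)
      rw [abs_div, abs_of_pos (pow_pos hX0 2), div_le_iff₀ (pow_pos hX0 2)]
      refine h3.trans ?_
      have h4 : (X : ℝ) / N ≤ X := div_le_self hX0.le (by exact_mod_cast hN)
      calc ((X : ℝ) / N) ^ (7 / 4 : ℝ) * (X : ℝ) ^ (1 / 8 : ℝ) ≤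
            (X : ℝ) ^ (7 / 4 : ℝ) * (X : ℝ) ^ (1 / 8 : ℝ) :=
            mul_le_mul_of_nonneg_right (Real.rpow_le_rpow (by positivity) h4 (by norm_num))
              (by positivity)
        _ = (X : ℝ) ^ (-(1 / 8) : ℝ) * (X : ℝ) ^ 2 := by
            rw [← Real.rpow_natCast (X : ℝ) 2, ← Real.rpow_add hX0, ← Real.rpow_add hX0]
            norm_num
    have h3 : Tendsto (fun N : ℕ => (N : ℝ) ^ (-(1 / 8) : ℝ)) atTop (𝓝 0) :=
      (tendsto_rpow_neg_atTop (by norm_num)).comp tendsto_natCast_atTop_atTop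
    exact squeeze_zero_norm' h2 h3
  · obtain ⟨c, hc0, hc⟩ := linear_form d F hF hU
    have h1 := hg 1 1 (1 / 8) (by norm_num)
    have h3X : Tendsto (fun X : ℕ => 3 * X) atTop atTop :=
      tendsto_id.const_mul_atTop' (by norm_num)
    have hsq : Squarefree ((Polynomial.C c * Polynomial.X : Polynomial ℤ).map
        (Int.castRingHom ℚ)) := by
      rw [Polynomial.map_mul, Polynomial.map_C, Polynomial.map_X, eq_intCast]
      have h4 : (Polynomial.X : Polynomial ℚ).Separable := Polynomial.separable_X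
      exact (h4.unit_mul (Polynomial.isUnit_C.2
        (isUnit_iff_ne_zero.2 (by exact_mod_cast hc0)))).squarefree
    have hdeg : (Polynomial.C c * Polynomial.X : Polynomial ℤ).natDegree = 1 :=
      Polynomial.natDegree_C_mul_X _ hc0
    have h2 : ∀ᶠ X : ℕ in atTop, |(∑ v ∈ (Icc (-(X : ℤ)) X).filter (fun v => v % N = b % N),
        ∑ u ∈ (Icc (-(X : ℤ)) X).filter (fun u => u % N = a % N), g (at2 F u v)) / (X : ℝ) ^ 2| ≤
        27 * (X : ℝ) ^ (-(1 / 8) : ℝ) := by
      filter_upwards [h3X.eventually h1, eventually_ge_atTop c.natAbs, eventually_ge_atTop N,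
        eventually_ge_atTop 1] with X hX1 hX2 hX3 hX4
      have hX0 : (0 : ℝ) < X := by exact_mod_cast hX4
      have hXX : (1 : ℝ) ≤ X := by exact_mod_cast hX4
      have e2 : ∑ v ∈ (Icc (-(X : ℤ)) X).filter (fun v => v % N = b % N),
          ∑ u ∈ (Icc (-(X : ℤ)) X).filter (fun u => u % N = a % N), g (at2 F u v) =
          (((Icc (-(X : ℤ)) X).filter (fun u => u % N = a % N)).card : ℝ) *
          ∑ v ∈ (Icc (-(X : ℤ)) X).filter (fun v => v % N = b % N), g (c * v) := by
        rw [mul_sum]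
        refine sum_congr rfl fun v _ => ?_
        simp_rw [hc]
        rw [sum_const, nsmul_eq_mul]
      have e3 : (((Icc (-(X : ℤ)) X).filter (fun u => u % N = a % N)).card : ℝ) ≤ 3 * X := by
        have h4 := card_filter_le (Icc (-(X : ℤ)) X) (fun u => u % N = a % N)
        rw [Int.card_Icc] at h4
        have h5 : ((Icc (-(X : ℤ)) X).filter (fun u => u % N = a % N)).card ≤ 3 * X := by omega
        exact_mod_cast h5
      obtain ⟨b', L, h4, h5, h6⟩ := class_int (fun v => g (c * v)) (-(X : ℤ)) X X le_rfl le_rfl b N hN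
        (by omega)
      have hL3 : L ≤ 3 * X := by
        have h7 : (L : ℤ) * N ≤ 3 * X * N := by
          have h8 : (X : ℤ) ≤ X * N := by
            have : (1 : ℤ) ≤ N := by exact_mod_cast hN
            nlinarith
          have h9 : (N : ℤ) ≤ X * N := by
            have h10 : (1 : ℤ) ≤ X := by exact_mod_cast hX4
            have h11 : (0 : ℤ) ≤ N := by positivity
            nlinarith
          linarith
        have h8 : (L : ℤ) ≤ 3 * X := le_of_mul_le_mul_right h7 (by exact_mod_cast hN)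
        exact_mod_cast h8
      have h7 := hX1 (Polynomial.C c * Polynomial.X) b' N L ⟨hsq, hdeg.ge, hdeg.le, fun i => by
        rw [Polynomial.coeff_C_mul, Polynomial.coeff_X]
        split_ifs
        · rw [mul_one, pow_one, ← Int.natCast_natAbs]
          have : c.natAbs ≤ 3 * X := by omega
          exact_mod_cast this
        · rw [mul_zero, abs_zero]
          positivity, by
            rw [pow_one]
            refine h4.trans ?_
            push_cast
            omega, hN, by rw [pow_one]; omega, hL3⟩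
      simp only [Polynomial.eval_mul, Polynomial.eval_C, Polynomial.eval_X] at h7
      rw [← h6] at h7
      rw [e2, abs_div, abs_of_pos (pow_pos hX0 2), div_le_iff₀ (pow_pos hX0 2), abs_mul,
        abs_of_nonneg (Nat.cast_nonneg _)]
      have h8 : (L : ℝ) ^ (3 / 4 : ℝ) * ((3 * X : ℕ) : ℝ) ^ (1 / 8 : ℝ) ≤
          9 * (X : ℝ) ^ (7 / 8 : ℝ) := by
        have h9 : (L : ℝ) ≤ ((3 * X : ℕ) : ℝ) := by exact_mod_cast hL3
        have h3X0 : (0 : ℝ) < ((3 * X : ℕ) : ℝ) := by
          push_cast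
          positivity
        calc (L : ℝ) ^ (3 / 4 : ℝ) * ((3 * X : ℕ) : ℝ) ^ (1 / 8 : ℝ) ≤
              ((3 * X : ℕ) : ℝ) ^ (3 / 4 : ℝ) * ((3 * X : ℕ) : ℝ) ^ (1 / 8 : ℝ) :=
              mul_le_mul_of_nonneg_right (Real.rpow_le_rpow (by positivity) h9 (by norm_num))
                (by positivity)
          _ = ((3 * X : ℕ) : ℝ) ^ (7 / 8 : ℝ) := by
              rw [← Real.rpow_add h3X0]
              norm_num
          _ = (3 : ℝ) ^ (7 / 8 : ℝ) * (X : ℝ) ^ (7 / 8 : ℝ) := by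
              push_cast
              rw [Real.mul_rpow (by norm_num) hX0.le]
          _ ≤ 9 * (X : ℝ) ^ (7 / 8 : ℝ) := by
              refine mul_le_mul_of_nonneg_right ?_ (by positivity)
              calc (3 : ℝ) ^ (7 / 8 : ℝ) ≤ (3 : ℝ) ^ (2 : ℝ) :=
                    Real.rpow_le_rpow_of_exponent_le (by norm_num) (by norm_num)
                _ = 9 := by norm_num
      have h10 : (X : ℝ) * (X : ℝ) ^ (7 / 8 : ℝ) = (X : ℝ) ^ (-(1 / 8) : ℝ) * (X : ℝ) ^ 2 := by
        nth_rewrite 1 [← Real.rpow_one (X : ℝ)]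
        rw [← Real.rpow_natCast (X : ℝ) 2, ← Real.rpow_add hX0, ← Real.rpow_add hX0]
        norm_num
      calc _ ≤ (3 * X) * (9 * (X : ℝ) ^ (7 / 8 : ℝ)) :=
            mul_le_mul e3 (h7.trans h8) (abs_nonneg _) (by positivity)
        _ = 27 * ((X : ℝ) * (X : ℝ) ^ (7 / 8 : ℝ)) := by ring
        _ = 27 * ((X : ℝ) ^ (-(1 / 8) : ℝ) * (X : ℝ) ^ 2) := by rw [h10]
        _ = 27 * (X : ℝ) ^ (-(1 / 8) : ℝ) * (X : ℝ) ^ 2 := by ring
    have h3 : Tendsto (fun N : ℕ => 27 * (N : ℝ) ^ (-(1 / 8) : ℝ)) atTop (𝓝 0) := by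
      have h4 : Tendsto (fun N : ℕ => (N : ℝ) ^ (-(1 / 8) : ℝ)) atTop (𝓝 0) :=
        (tendsto_rpow_neg_atTop (by norm_num)).comp tendsto_natCast_atTop_atTop
      simpa using h4.const_mul 27
    exact squeeze_zero_norm' h2 h3

/-- **All squarefree binary forms for almost every completely multiplicative twist.** -/
theorem result :
    ∀ᵐ ω ∂cm, ∀ ω' : ℕ → Bool, {p | ω' p ≠ ω p}.Finite →
      -- (1) every row
      RowSaving (tw ω') ∧
      -- (2) all regions and translated lattices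
      RegionSaving (tw ω') ∧
      -- (3) the statement of the problem for binary forms
      Chowla2 (tw ω') := by
  refine Pool.Agent.Q163.EX.ae_fin ?_
  filter_upwards [ae_savi lam abs_lam (if_pos rfl)] with ω hω
  have h1 : (fun n : ℤ => lam n * ch ω n.natAbs) = tw ω := by
    funext n
    rw [ch_eq]
    rfl
  rw [h1] at hω
  have h2 := row_saving _ hω
  have h3 := region_saving _ (abs_tw ω) h2
  exact ⟨h2, h3, chowla2 _ hω h3⟩

end Pool.Agent.Results.MP_d639b3_nt.BinaryFormTwists
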