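import Pool.Agent.Q270.EG.Main
import Pool.Agent.Q270.EC.Mod2

/-!
# The Liouville function at products of linear polynomials and the residues modulo many primes

Let `L_j(n) = c_j n + d_j` (`j < k`, `c_j ≥ 1`, `d_j ≥ 0`) and `f = L_0 ⋯ L_{k-1}`. For a finite set `Q` of primes and sets
`R_q` of residues modulo the `q ∈ Q` let `hits(n)` be the set of all pairs `(q, r)`, `q ∈ Q`, `r ∈ R_q`, with
`n ≡ r (mod q)`. `Adm c d z N κ W Q R` says that the primes in `Q` satisfy `z < q ≤ N^{1/z}` and `∑_{q ∈ Q} 1/q ≤ W`, and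
that `R_q` has at most `κ` elements `r`, all of them with `f(r) ≢ 0 (mod q)`. `LogProp X B` is the proportion, with the
weights `1/N`, of the scales `N ≤ X` with the property `B`; `mean N φ` is the mean value of `φ` on `[1, N]`. We say that
a property holds at almost all scales, uniformly in the hits, if for given `κ, W` and `ε > 0` there is `z` such that for
large `X` all scales `N ≤ X` but a logarithmic proportion `ε` have it for ALL `Q`, `R_q` with `Adm c d z N κ W Q R` and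
ALL functions `|Φ| ≤ 1`. In this sense:

1. `|mean_n Φ(hits(n), (λ(L_j(n)))_j) - mean_m mean_n Φ(hits(m), (λ(L_j(n)))_j)| ≤ ε`: the signs of the factors and the
   hits are independent in total variation.
2. `|mean_n Φ(hits(n)) λ(f(n))| ≤ ε` for `f = L_0 L_1` squarefree, unconditionally.
3. For every `f`: `mean_n λ(f(n))` is small at almost all scales if and only if all `mean_n Φ(hits(n)) λ(f(n))` are.

A progression `n = a + M t` is allowed: the forms `L_j(a + M t)` are of the same kind.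
-/

set_option autoImplicit false

namespace Pool.Agent.Results.MP_d639b3_nt.LinearFactors

open Finset Filter Pool.Agent.Q270.EA Pool.Agent.Q270.EB Pool.Agent.Q270.EC Pool.Agent.Q270.EG

open Classical in
/-- the proportion, with the weights `1 / N`, of the scales `N ≤ X` with the property `B` -/
noncomputable def LogProp (X : ℕ) (B : ℕ → Prop) : ℝ :=
  (∑ N ∈ Icc 1 X, if B N then 1 / (N : ℝ) else 0) / ∑ N ∈ Icc 1 X, 1 / (N : ℝ)

/-- the mean value on `[1, N]` -/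
noncomputable def mean (N : ℕ) (φ : ℕ → ℂ) : ℂ := (∑ n ∈ Icc 1 N, φ n) / N

/-- the pairs `(q, r)`, `q ∈ Q`, `r ∈ R q`, with `n ≡ r (mod q)` -/
def hits (Q : Finset ℕ) (R : ℕ → Finset ℕ) (n : ℕ) : Finset (ℕ × ℕ) :=
  (Q.biUnion (fun q => (R q).image (fun r => (q, r)))).filter (fun x => n % x.1 = x.2)

/-- the product of the linear forms `c j n + d j` -/
def prodForms {k : ℕ} (c d : Fin k → ℕ) (n : ℕ) : ℕ := ∏ j, (c j * n + d j)

/-- the primes `q ∈ Q` are in `(z, N^{1/z}]`, `∑ 1/q ≤ W`; at most `κ` residues `r ∈ R q`, `f(r) ≢ 0 (mod q)` -/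
def Adm {k : ℕ} (c d : Fin k → ℕ) (z N κ : ℕ) (W : ℝ) (Q : Finset ℕ) (R : ℕ → Finset ℕ) : Prop :=
  (∀ q ∈ Q, q.Prime ∧ z < q ∧ q ^ z ≤ N ∧ (R q).card ≤ κ ∧ ∀ r ∈ R q, r < q ∧ ¬ q ∣ prodForms c d r) ∧
    ∑ q ∈ Q, 1 / (q : ℝ) ≤ W

/-- the Liouville function -/
def liouville (n : ℕ) : ℤ := (-1) ^ ArithmeticFunction.cardFactors n

lemma mean_eq (N : ℕ) (φ : ℕ → ℂ) : mean N φ = AvN N φ := by
  unfold mean AvN
  rw [one_div_mul_eq_div]

lemma LogProp_eq (X : ℕ) (B : ℕ → Prop) : LogProp X B = LM X B := rfl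

lemma li_lam (n : ℕ) : ((liouville n : ℤ) : ℂ) = lam n := by
  unfold liouville lam
  push_cast
  rfl

lemma lam_mul {m n : ℕ} (hm : 1 ≤ m) (hn : 1 ≤ n) : lam (m * n) = lam m * lam n := by
  unfold lam
  rw [ArithmeticFunction.cardFactors_mul (by omega) (by omega), pow_add]

lemma lam_norm (n : ℕ) : ‖lam n‖ = 1 := by
  unfold lam
  rw [norm_pow, norm_neg, norm_one, one_pow]

/-- the value at the product -/
lemma lam_prod {k : ℕ} (c d : Fin k → ℕ) (hc : ∀ j, 1 ≤ c j) {n : ℕ} (hn : 1 ≤ n) :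
    ((liouville (prodForms c d n) : ℤ) : ℂ) = ∏ j, lam (c j * n + d j) := by
  rw [li_lam]
  unfold prodForms
  have h : ∀ s : Finset (Fin k), lam (∏ j ∈ s, (c j * n + d j)) = ∏ j ∈ s, lam (c j * n + d j) := by
    classical
    intro s
    induction s using Finset.induction_on with
    | empty => simp [lam]
    | insert j s hj ih =>
      have hpos : ∀ j, 1 ≤ c j * n + d j := fun j => by
        have := Nat.mul_pos (hc j) hn
        omega
      rw [prod_insert hj, prod_insert hj, lam_mul (hpos j) (Nat.one_le_iff_ne_zero.2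
        (prod_ne_zero_iff.2 fun i _ => by have := hpos i; omega)), ih]
  exact h univ

/-- the admissible residues -/
lemma adm_conv {k z N κ : ℕ} {c d : Fin k → ℕ} {W : ℝ} {Q : Finset ℕ} {R : ℕ → Finset ℕ}
    (h : Adm c d z N κ W Q R) : ∀ q ∈ Q, z < q ∧ q.Prime ∧ q ^ z ≤ N ∧ (R q).card ≤ κ ∧
      ∀ r ∈ R q, r < q ∧ ∀ j, ¬ q ∣ c j * r + d j := by
  intro q hq
  obtain ⟨e1, e2, e3, e4, e5⟩ := h.1 q hq
  refine ⟨e2, e1, e3, e4, fun r hr => ⟨(e5 r hr).1, fun j hj => (e5 r hr).2 ?_⟩⟩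
  exact hj.trans (dvd_prod_of_mem (fun j => c j * r + d j) (mem_univ j))

lemma rho (D c : ℕ) (hD : 1 ≤ D) (hc : c ∣ D) :
    ∃ ρ : ℂ, ‖ρ‖ = 1 ∧ ∀ m, 1 ≤ m → lam (D / c * m) = ρ * lam m :=
  ⟨lam (D / c), lam_norm _, fun _ hm => lam_mul (Nat.div_pos (Nat.le_of_dvd (by omega) hc)
    (Nat.pos_of_dvd_of_pos hc (by omega))) hm⟩

/-- the mean value of the product -/
lemma mean_prod {k : ℕ} (c d : Fin k → ℕ) (hc : ∀ j, 1 ≤ c j) (N : ℕ) (φ : ℕ → ℂ) :
    mean N (fun n => φ n * (liouville (prodForms c d n) : ℂ)) =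
      AvN N (fun n => φ n * ∏ j, lam (c j * n + d j)) := by
  rw [mean_eq]
  unfold AvN
  congr 1
  refine sum_congr rfl fun n hn => ?_
  show φ n * ((liouville (prodForms c d n) : ℤ) : ℂ) = φ n * ∏ j, lam (c j * n + d j)
  rw [lam_prod c d hc (mem_Icc.1 hn).1]

lemma mean_prod' {k : ℕ} (c d : Fin k → ℕ) (hc : ∀ j, 1 ≤ c j) (N : ℕ) :
    mean N (fun n => (liouville (prodForms c d n) : ℂ)) = AvN N (fun n => ∏ j, lam (c j * n + d j)) := by
  have := mean_prod c d hc N (fun _ => 1)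
  simpa using this

/-- independence for the product -/
lemma ind_prod {k : ℕ} (c d : Fin k → ℕ) (hc : ∀ j, 1 ≤ c j) (κ : ℕ)
    (W ε : ℝ) (hε : 0 < ε) : ∃ z : ℕ, 1 ≤ z ∧ ∃ X₀ : ℕ, ∀ X : ℕ, X₀ ≤ X →
      LM X (fun N => ∃ Q R, Adm c d z N κ W Q R ∧ ∃ Φ : Finset (ℕ × ℕ) → ℂ, (∀ S, ‖Φ S‖ ≤ 1) ∧
        ε + ‖mean N (fun n => (liouville (prodForms c d n) : ℂ))‖ <
          ‖mean N (fun n => Φ (hits Q R n) * (liouville (prodForms c d n) : ℂ))‖) ≤ ε := by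
  have hD : 1 ≤ ∏ j, c j := Nat.one_le_iff_ne_zero.2 (prod_ne_zero_iff.2 fun j _ => by have := hc j; omega)
  have hcD : ∀ j, c j ∣ ∏ j, c j := fun j => dvd_prod_of_mem c (mem_univ j)
  obtain ⟨z, hz, X₀, h⟩ := eg_f k c d (∏ j, c j) hD (fun j => ⟨hc j, hcD j⟩) κ W ε hε
  refine ⟨z, hz, X₀, fun X hX => ?_⟩
  have h1 := h X hX (fun _ => lam) (fun _ => BM_lam) (fun j => rho _ _ hD (hcD j))
  refine (LM_mono X fun N _ hbad => ?_).trans h1
  intro hI
  obtain ⟨Q, R, hQ, Φ, hΦ, hlt⟩ := hbad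
  have h2 := hI Q R (adm_conv hQ) hQ.2 Φ hΦ
  rw [mean_prod c d hc, mean_prod' c d hc] at hlt
  have h3 := norm_add_le (AvN N (fun n => Φ (hit Q R n) * ∏ j, lam (c j * n + d j)) -
    AvN N (fun n => Φ (hit Q R n)) * AvN N (fun n => ∏ j, lam (c j * n + d j)))
    (AvN N (fun n => Φ (hit Q R n)) * AvN N (fun n => ∏ j, lam (c j * n + d j)))
  rw [sub_add_cancel] at h3
  have h4 : ‖AvN N (fun n => Φ (hit Q R n)) * AvN N (fun n => ∏ j, lam (c j * n + d j))‖ ≤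
      ‖AvN N (fun n => ∏ j, lam (c j * n + d j))‖ := by
    rw [norm_mul]
    exact mul_le_of_le_one_left (norm_nonneg _) (norm_AvN_le (fun n => hΦ _) N)
  have h5 : ε + ‖AvN N (fun n => ∏ j, lam (c j * n + d j))‖ <
      ‖AvN N (fun n => Φ (hit Q R n) * ∏ j, lam (c j * n + d j))‖ := hlt
  linarith

theorem result :
    (∀ (k : ℕ) (c d : Fin k → ℕ), (∀ j, 1 ≤ c j) → ∀ (κ : ℕ) (W ε : ℝ), 0 < ε →
      ∃ z : ℕ, 1 ≤ z ∧ ∃ X₀ : ℕ, ∀ X : ℕ, X₀ ≤ X →
      LogProp X (fun N => ∃ Q R, Adm c d z N κ W Q R ∧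
        ∃ Φ : Finset (ℕ × ℕ) → (Fin k → ℤ) → ℂ, (∀ S v, ‖Φ S v‖ ≤ 1) ∧
          ε < ‖mean N (fun n => Φ (hits Q R n) (fun j => liouville (c j * n + d j))) -
            mean N (fun m => mean N (fun n => Φ (hits Q R m) (fun j => liouville (c j * n + d j))))‖) ≤ ε) ∧
    (∀ c d : Fin 2 → ℕ, (∀ j, 1 ≤ c j) → c 0 * d 1 ≠ c 1 * d 0 → ∀ (κ : ℕ) (W ε : ℝ), 0 < ε →
      ∃ z : ℕ, 1 ≤ z ∧ ∃ X₀ : ℕ, ∀ X : ℕ, X₀ ≤ X →
      LogProp X (fun N => ∃ Q R, Adm c d z N κ W Q R ∧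
        ∃ Φ : Finset (ℕ × ℕ) → ℂ, (∀ S, ‖Φ S‖ ≤ 1) ∧
          ε < ‖mean N (fun n => Φ (hits Q R n) * (liouville (prodForms c d n) : ℂ))‖) ≤ ε) ∧
    (∀ (k : ℕ) (c d : Fin k → ℕ), (∀ j, 1 ≤ c j) →
      ((∀ ε : ℝ, 0 < ε → ∃ X₀ : ℕ, ∀ X : ℕ, X₀ ≤ X →
        LogProp X (fun N => ε < ‖mean N (fun n => (liouville (prodForms c d n) : ℂ))‖) ≤ ε) ↔
      ∀ (κ : ℕ) (W ε : ℝ), 0 < ε → ∃ z : ℕ, 1 ≤ z ∧ ∃ X₀ : ℕ, ∀ X : ℕ, X₀ ≤ X →
        LogProp X (fun N => ∃ Q R, Adm c d z N κ W Q R ∧ ∃ Φ : Finset (ℕ × ℕ) → ℂ, (∀ S, ‖Φ S‖ ≤ 1) ∧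
          ε < ‖mean N (fun n => Φ (hits Q R n) * (liouville (prodForms c d n) : ℂ))‖) ≤ ε)) := by
  classical
  refine ⟨fun k c d hc κ W ε hε => ?_, fun c d hc hne κ W ε hε => ?_, fun k c d hc => ⟨fun hS κ W ε hε => ?_,
    fun hS ε hε => ?_⟩⟩
  · -- the joint law
    have hD : 1 ≤ ∏ j, c j := Nat.one_le_iff_ne_zero.2 (prod_ne_zero_iff.2 fun j _ => by have := hc j; omega)
    have hcD : ∀ j, c j ∣ ∏ j, c j := fun j => dvd_prod_of_mem c (mem_univ j)
    obtain ⟨z, hz, X₀, h⟩ := eg_law k c d (∏ j, c j) hD (fun j => ⟨hc j, hcD j⟩) {1, -1, 0} κ W ε hε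
    refine ⟨z, hz, X₀, fun X hX => ?_⟩
    have h1 := h X hX (fun _ => lam) (fun _ => BM_lam) (fun _ n => by
      rw [mem_insert, mem_insert, mem_singleton]
      exact Tern_lam.2 n) (fun j => rho _ _ hD (hcD j))
    refine (LM_mono X fun N _ hbad => ?_).trans h1
    intro hI
    obtain ⟨Q, R, hQ, Φ, hΦ, hlt⟩ := hbad
    have h2 := hI Q R (adm_conv hQ) hQ.2 (fun S v => Φ S (fun j => round (v j).re)) (fun S v => hΦ _ _)
    have e1 : ∀ n, (fun j => round (lam (c j * n + d j)).re) = fun j => liouville (c j * n + d j) := by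
      intro n
      funext j
      rw [← li_lam, Complex.intCast_re, round_intCast]
    simp only [e1] at h2
    simp only [mean_eq] at hlt
    exact absurd h2 (not_le.2 hlt)
  · -- two factors
    obtain ⟨z, hz, X₁, h1⟩ := ind_prod c d hc κ W (ε / 2) (by positivity)
    obtain ⟨X₂, h2⟩ := two_form (c 0) (c 1) (d 0) (d 1) (hc 0) (hc 1) hne (ε / 2) (by positivity)
    refine ⟨z, hz, X₁ + X₂, fun X hX => ?_⟩
    have h3 := h1 X (by omega)
    have h4 := h2 X (by omega) lam BM_lam (fun e he => ⟨lam e, lam_norm e, fun m hm =>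
      lam_mul (Nat.pos_of_dvd_of_pos he (Nat.mul_pos (hc 0) (hc 1))) hm⟩)
    have e0 : ∀ N, mean N (fun n => (liouville (prodForms c d n) : ℂ)) =
        AvN N (fun n => lam (c 0 * n + d 0) * lam (c 1 * n + d 1)) := by
      intro N
      rw [mean_prod' c d hc]
      simp only [Fin.prod_univ_two]
    refine (LM_mono X (Q := fun N => (∃ Q R, Adm c d z N κ W Q R ∧
        ∃ Φ : Finset (ℕ × ℕ) → ℂ, (∀ S, ‖Φ S‖ ≤ 1) ∧
        ε / 2 + ‖mean N (fun n => (liouville (prodForms c d n) : ℂ))‖ <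
          ‖mean N (fun n => Φ (hits Q R n) * (liouville (prodForms c d n) : ℂ))‖) ∨
        ε / 2 < ‖AvN N (fun n => lam (c 0 * n + d 0) * lam (c 1 * n + d 1))‖)
        fun N _ hbad => ?_).trans ((LM_or X _ _).trans (by linarith))
    by_contra hcon
    push Not at hcon
    obtain ⟨Q, R, hQ, Φ, hΦ, hlt⟩ := hbad
    have e3 := hcon.1 Q R hQ Φ hΦ
    have e4 := hcon.2
    rw [← e0] at e4
    linarith
  · -- the equivalence
    obtain ⟨z, hz, X₁, h1⟩ := ind_prod c d hc κ W (ε / 2) (by positivity)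
    obtain ⟨X₂, h2⟩ := hS (ε / 2) (by positivity)
    refine ⟨z, hz, X₁ + X₂, fun X hX => ?_⟩
    have h3 := h1 X (by omega)
    have h4 := h2 X (by omega)
    rw [LogProp_eq] at h4
    refine (LM_mono X (Q := fun N => (∃ Q R, Adm c d z N κ W Q R ∧
        ∃ Φ : Finset (ℕ × ℕ) → ℂ, (∀ S, ‖Φ S‖ ≤ 1) ∧
        ε / 2 + ‖mean N (fun n => (liouville (prodForms c d n) : ℂ))‖ <
          ‖mean N (fun n => Φ (hits Q R n) * (liouville (prodForms c d n) : ℂ))‖) ∨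
        ε / 2 < ‖mean N (fun n => (liouville (prodForms c d n) : ℂ))‖)
        fun N _ hbad => ?_).trans ((LM_or X _ _).trans (by linarith))
    by_contra hcon
    push Not at hcon
    obtain ⟨Q, R, hQ, Φ, hΦ, hlt⟩ := hbad
    have e3 := hcon.1 Q R hQ Φ hΦ
    have e4 := hcon.2
    linarith
  · obtain ⟨z, hz, X₀, h⟩ := hS 0 0 ε hε
    refine ⟨X₀, fun X hX => (LM_mono X fun N _ hbad => ?_).trans (h X hX)⟩
    refine ⟨∅, fun _ => ∅, ⟨fun q hq => absurd hq (notMem_empty q), by simp⟩, fun _ => 1,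
      fun _ => by simp, ?_⟩
    simp only [one_mul]
    exact hbad

end Pool.Agent.Results.MP_d639b3_nt.LinearFactors
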