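import Pool.Agent.Q236.LP.Zeros

set_option autoImplicit false

/-!
# The Liouville function at an arbitrary function plus a random polynomial: random signs

Let `f_1, …, f_n : ℕ → ℤ` be ARBITRARY functions, and let `P_i = f_i + c_{i0} + c_{i1} x + … + c_{i,d-1} x^(d-1)`, where
the coefficients `c_{ij}` run independently through the integers of intervals of length at least `X / log^C X`, such
that at the arguments `k ≤ log^C X` considered the values are at most `X log^C X` in absolute value.

* **Patterns.** For `X → ∞` and any `≤ d` arguments, every pattern of the signs `λ(P_i(k))` has the probability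
  `2^(-n |J|) + O(log^(-A) X)`, for every `A`.
* **Central limit theorem.** For `d ≥ d₀(n, ε)` the sums over ANY set `S` of arguments of ANY functions
  `g_k(λ(P_1(k)), …, λ(P_n(k)))`, bounded by `1` and of mean `0` under independent fair signs, with the sum `V ≥ V₀(n, ε)` of
  their variances, satisfy the central limit theorem up to `ε`.
* **Square root cancellation.** For `d ≥ d₀(n, B, D, η)` and arguments `≤ log^D X` all but a proportion `log^(-B) X` of the
  arrays of coefficients are such that the sums over ALL arithmetic progressions of length `l` are at most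
  `l^(1/2) log^η X` simultaneously.

Examples: `g_k(e) = w_k ∏_{i ∈ I} e_i` gives the sums of `w_k λ(∏_{i ∈ I} P_i(k))` with arbitrary weights `|w_k| ≤ 1`,
`g_k(e) = 1 - 2^(-n)` for `e = e₀` and `-2^(-n)` else gives the number of the `k` with the signs `e₀`.
-/

namespace Pool.Agent.Results.MP_d639b3_nt.RandomSigns

open Finset Filter

/-- Liouville's function on the integers, `λ(-m) = λ(m)`, `λ(0) = 0`. -/
def lam (z : ℤ) : ℤ := if z = 0 then 0 else (-1) ^ ArithmeticFunction.cardFactors z.natAbs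

/-- The value at `k` of `f + c_0 + c_1 x + … + c_{d-1} x^(d-1)`. -/
def value {d : ℕ} (f : ℕ → ℤ) (c : Fin d → ℤ) (k : ℕ) : ℤ := f k + ∑ j, c j * (k : ℤ) ^ (j : ℕ)

/-- The values of Liouville's function at `P_1(k), …, P_n(k)`. -/
def signs {n d : ℕ} (f : Fin n → ℕ → ℤ) (c : Fin n → Fin d → ℤ) (k : ℕ) : Fin n → ℤ := fun i => lam (value (f i) (c i) k)

/-- The arrays of coefficients `Z i j < c i j ≤ Z i j + Y i j`. -/
noncomputable def Arrays {n d : ℕ} (Z : Fin n → Fin d → ℤ) (Y : Fin n → Fin d → ℕ) : Finset (Fin n → Fin d → ℤ) :=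
  Fintype.piFinset fun i => Fintype.piFinset fun j => Ioc (Z i j) (Z i j + Y i j)

/-- The sizes: intervals of length at least `X / log^C X` for the coefficients, arguments at most `log^C X`, values
at most `X log^C X` in absolute value. -/
structure Sizes (C X : ℕ) {n d : ℕ} (f : Fin n → ℕ → ℤ) (Z : Fin n → Fin d → ℤ) (Y : Fin n → Fin d → ℕ)
    (S : Finset ℕ) : Prop where
  side : ∀ i j, (X : ℝ) / Real.log X ^ C ≤ Y i j
  arguments : ∀ k ∈ S, (k : ℝ) ≤ Real.log X ^ C
  values : ∀ c ∈ Arrays Z Y, ∀ k ∈ S, ∀ i, |(value (f i) (c i) k : ℝ)| ≤ X * Real.log X ^ C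

/-- The vectors of `n` signs. -/
def SignVectors (n : ℕ) : Finset (Fin n → ℤ) := Fintype.piFinset fun _ => {1, -1}

/-- The functions `g_k` are bounded by `1` and have the mean `0` under independent fair signs. -/
structure Centred {n : ℕ} (g : ℕ → (Fin n → ℤ) → ℝ) : Prop where
  bound : ∀ k e, |g k e| ≤ 1
  mean : ∀ k, ∑ e ∈ SignVectors n, g k e = 0

/-- The variance of `g` under independent fair signs. -/
noncomputable def variance {n : ℕ} (g : (Fin n → ℤ) → ℝ) : ℝ := (∑ e ∈ SignVectors n, g e ^ 2) / 2 ^ n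

/-- The distribution function of the standard normal law. -/
noncomputable def Phi (x : ℝ) : ℝ := ((ProbabilityTheory.gaussianReal 0 1) (Set.Iic x)).toReal

/-- The arithmetic progression `a, a + q, …, a + (l - 1) q`. -/
def Progression (a q l : ℕ) : Finset ℕ := (range l).image (fun j => a + q * j)

open Pool.Agent.Q236.LP
open Pool.Agent.Q236.RP (Box mem_Box ev ev_log_ge ev_pow_log)

lemma arrays_eq {n d : ℕ} (Z : Fin n → Fin d → ℤ) (Y : Fin n → Fin d → ℕ) : Arrays Z Y = BoxL Z Y := rfl

lemma signs_eq {n d : ℕ} (f : Fin n → ℕ → ℤ) (c : Fin n → Fin d → ℤ) (k : ℕ) :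
    signs f c k = fun i => Pool.Agent.Q236.LP.lam (ev (f i) (c i) k) := rfl

lemma sizes_lz {C X n d : ℕ} {f : Fin n → ℕ → ℤ} {Z : Fin n → Fin d → ℤ} {Y : Fin n → Fin d → ℕ}
    {S : Finset ℕ} (h : Sizes C X f Z Y S) (hX : (0 : ℝ) < (X : ℝ) / Real.log X ^ C) :
    ∀ i, LZ C X (f i) (Z i) (Y i) S := by
  have hY : ∀ i j, 1 ≤ Y i j := by
    intro i j
    have h1 := h.side i j
    have : (0 : ℝ) < Y i j := lt_of_lt_of_le hX h1
    exact_mod_cast this
  have key : ∀ i, ∀ b ∈ Box (Z i) (Y i), ∃ c ∈ Arrays Z Y, c i = b := by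
    intro i b hb
    refine ⟨fun l => if h : l = i then b else fun j => Z l j + 1, ?_, ?_⟩
    · rw [arrays_eq]
      unfold BoxL
      rw [Fintype.mem_piFinset]
      intro l
      split_ifs with hl
      · rw [hl]
        exact hb
      · rw [mem_Box]
        intro j
        have : (1 : ℤ) ≤ Y l j := by exact_mod_cast hY l j
        exact ⟨by linarith, by linarith⟩
    · simp
  intro i
  refine ⟨h.side i, h.arguments, ?_⟩
  intro k hk b hb
  obtain ⟨c, hc, rfl⟩ := key i b hb
  exact h.values c hc k hk i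

lemma ap_reduce (S : Finset ℕ) (R : ℝ) (hR : 1 ≤ R) (hS : ∀ k ∈ S, (k : ℝ) ≤ R) (a q l : ℕ) :
    ∃ a' q' l' : ℕ, (a' : ℝ) ≤ R ∧ (q' : ℝ) ≤ R ∧ (l' : ℝ) ≤ 2 * R ∧ l' ≤ l ∧ S ∩ Progression a q l = S ∩ AP a' q' l' := by
  have h0 : S ∩ AP 0 0 0 = ∅ := by
    unfold AP
    simp
  by_cases ha : (a : ℝ) ≤ R
  · by_cases hl : l = 0
    · refine ⟨0, 0, 0, by simpa using by linarith, by simpa using by linarith, by simpa using by linarith, by omega, ?_⟩
      rw [h0, hl]
      unfold Progression
      simp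
    · by_cases hq : (q : ℝ) ≤ R ∧ 1 ≤ q
      · obtain ⟨m, hm⟩ : ∃ m, m = min l (⌊R⌋₊ + 1) := ⟨_, rfl⟩
        refine ⟨a, q, m, ha, hq.1, ?_, by rw [hm]; exact min_le_left _ _, ?_⟩
        · have h1 : (m : ℝ) ≤ (⌊R⌋₊ : ℝ) + 1 := by
            have : m ≤ ⌊R⌋₊ + 1 := by rw [hm]; exact min_le_right _ _
            exact_mod_cast this
          have h2 := Nat.floor_le (show 0 ≤ R by linarith)
          linarith
        · ext k
          rw [mem_inter, mem_inter]
          unfold Progression AP
          rw [mem_image, mem_image]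
          constructor
          · rintro ⟨hk, j, hj, hjk⟩
            refine ⟨hk, j, ?_, hjk⟩
            rw [mem_range] at hj ⊢
            rw [hm, lt_min_iff]
            refine ⟨hj, ?_⟩
            have h1 : (j : ℝ) ≤ R := by
              refine le_trans ?_ (hS k hk)
              have : j ≤ k := by
                rw [← hjk]
                nlinarith [hq.2]
              exact_mod_cast this
            have := Nat.le_floor h1
            omega
          · rintro ⟨hk, j, hj, hjk⟩
            refine ⟨hk, j, ?_, hjk⟩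
            rw [mem_range] at hj ⊢
            rw [hm, lt_min_iff] at hj
            exact hj.1
      · refine ⟨a, 0, 1, ha, by simpa using by linarith, by push_cast; linarith, by omega, ?_⟩
        ext k
        rw [mem_inter, mem_inter]
        unfold Progression AP
        rw [mem_image, mem_image]
        constructor
        · rintro ⟨hk, j, hj, hjk⟩
          refine ⟨hk, 0, by simp, ?_⟩
          rcases Nat.eq_zero_or_pos q with h1 | h1
          · rw [h1] at hjk
            omega
          · have h2 : ¬(q : ℝ) ≤ R := fun h => hq ⟨h, h1⟩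
            push Not at h2
            have h3 : j = 0 := by
              by_contra hj0
              have h4 := hS k hk
              have h5 : q ≤ k := by
                rw [← hjk]
                have : 1 ≤ j := by omega
                nlinarith
              have h6 : (q : ℝ) ≤ k := by exact_mod_cast h5
              linarith
            rw [h3] at hjk
            omega
        · rintro ⟨hk, j, hj, hjk⟩
          refine ⟨hk, 0, ?_, ?_⟩
          · rw [mem_range]
            omega
          · rw [mem_range] at hj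
            have : j = 0 := by omega
            rw [this] at hjk
            omega
  · refine ⟨0, 0, 0, by simpa using by linarith, by simpa using by linarith, by simpa using by linarith, by omega, ?_⟩
    rw [h0]
    ext k
    rw [mem_inter]
    unfold Progression
    rw [mem_image]
    constructor
    · rintro ⟨hk, j, _, hjk⟩
      exfalso
      apply ha
      refine le_trans ?_ (hS k hk)
      have : a ≤ k := by omega
      exact_mod_cast this
    · intro h
      exact absurd h (notMem_empty k)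

lemma filter_inst {α : Type*} (s : Finset α) (p : α → Prop) (i1 i2 : DecidablePred p) :
    (@Finset.filter α p i1 s).card = (@Finset.filter α p i2 s).card := by
  rw [Subsingleton.elim i1 i2]

open Classical in
/-- **Random signs.** -/
theorem result :
    -- (1) the patterns of signs at `≤ d` arguments
    (∀ n d A C : ℕ, 1 ≤ d → ∃ X₀ : ℕ, ∀ X, X₀ ≤ X → ∀ (f : Fin n → ℕ → ℤ) (Z : Fin n → Fin d → ℤ)
      (Y : Fin n → Fin d → ℕ) (S : Finset ℕ), Sizes C X f Z Y S → ∀ J ⊆ S, J.card ≤ d → ∀ e : ℕ → Fin n → ℤ,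
      (∀ k ∈ J, e k ∈ SignVectors n) →
      |(((Arrays Z Y).filter (fun c => ∀ k ∈ J, signs f c k = e k)).card : ℝ) - (Arrays Z Y).card / 2 ^ (n * J.card)| ≤
        (Arrays Z Y).card / Real.log X ^ A) ∧
    -- (2) the central limit theorem
    (∀ (n : ℕ) (ε : ℝ), 0 < ε → ∃ (d₀ : ℕ) (V₀ : ℝ), ∀ C d : ℕ, d₀ ≤ d → ∃ X₀ : ℕ, ∀ X, X₀ ≤ X →
      ∀ (f : Fin n → ℕ → ℤ) (Z : Fin n → Fin d → ℤ) (Y : Fin n → Fin d → ℕ) (S : Finset ℕ), Sizes C X f Z Y S →
      ∀ g : ℕ → (Fin n → ℤ) → ℝ, Centred g → V₀ ≤ ∑ k ∈ S, variance (g k) → ∀ x : ℝ,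
      |(((Arrays Z Y).filter (fun c => ∑ k ∈ S, g k (signs f c k) ≤ x * Real.sqrt (∑ k ∈ S, variance (g k)))).card : ℝ) -
        Phi x * (Arrays Z Y).card| ≤ ε * (Arrays Z Y).card) ∧
    -- (3) square root cancellation in all arithmetic progressions
    (∀ (n B D : ℕ) (η : ℝ), 0 < η → ∃ d₀ : ℕ, ∀ C d : ℕ, d₀ ≤ d → ∃ X₀ : ℕ, ∀ X, X₀ ≤ X →
      ∀ (f : Fin n → ℕ → ℤ) (Z : Fin n → Fin d → ℤ) (Y : Fin n → Fin d → ℕ) (S : Finset ℕ), Sizes C X f Z Y S →
      (∀ k ∈ S, (k : ℝ) ≤ Real.log X ^ D) → ∀ g : ℕ → (Fin n → ℤ) → ℝ, Centred g →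
      (((Arrays Z Y).filter (fun c => ∃ a q l : ℕ,
        Real.sqrt l * Real.log X ^ η < |∑ k ∈ S ∩ Progression a q l, g k (signs f c k)|)).card : ℝ) ≤
        (Arrays Z Y).card / Real.log X ^ B) := by
  have hpos : ∀ C : ℕ, ∀ᶠ X : ℕ in atTop, 1 ≤ Real.log X ∧ (0 : ℝ) < (X : ℝ) / Real.log X ^ C := by
    intro C
    filter_upwards [ev_log_ge 1, ev_pow_log 1] with X hL hP
    refine ⟨hL, ?_⟩
    have : (0 : ℝ) < X := by
      rw [pow_one] at hP
      linarith
    positivity
  refine ⟨?_, ?_, ?_⟩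
  · intro n d A C hd
    obtain ⟨X0, hX0⟩ := eventually_atTop.1 ((ind_sgs n d (A + 1) C).and ((bd_card n d (A + 1) C hd).and
      ((hpos C).and (ev_log_ge 2))))
    refine ⟨X0, ?_⟩
    intro X hX f Z Y S hsz J hJS hJd e he
    obtain ⟨h1, h2, ⟨hL1, hXp⟩, hL2⟩ := hX0 X hX
    have hlz := sizes_lz hsz hXp
    have hB := h2 f Z Y S hsz.side hsz.arguments
    choose b hb using fun k => (show ∃ b : Fin n → Bool, k ∈ J → tr b = e k from by
      by_cases hk : k ∈ J
      · obtain ⟨b, hb⟩ := tr_surj (e k) (he k hk)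
        exact ⟨b, fun _ => hb⟩
      · exact ⟨fun _ => false, fun h => absurd h hk⟩)
    have h3 := h1 f Z Y S hlz J hJS hJd b
    have h4 := card_cmp (BoxL Z Y) (Bd f Z Y S) (fun c => ∀ k ∈ J, signs f c k = e k) (fun c => ∀ k ∈ J, sgs f c k = b k) (by
      intro c hc hcb
      constructor
      · intro h k hk
        have h5 := sgs_eq f Z Y S c hc hcb k (hJS hk)
        rw [← signs_eq, h k hk, ← hb k hk] at h5
        exact tr_inj h5
      · intro h k hk
        have h5 := sgs_eq f Z Y S c hc hcb k (hJS hk)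
        rw [← signs_eq, h k hk, hb k hk] at h5
        exact h5.symm)
    have h4' : |(((BoxL Z Y).filter (fun c => ∀ k ∈ J, signs f c k = e k)).card : ℝ) -
        ((BoxL Z Y).filter (fun c => ∀ k ∈ J, sgs f c k = b k)).card| ≤ (Bd f Z Y S).card := by
      rw [filter_inst (BoxL Z Y) (fun c => ∀ k ∈ J, signs f c k = e k) _ (fun _ => Classical.propDecidable _),
        filter_inst (BoxL Z Y) (fun c => ∀ k ∈ J, sgs f c k = b k) _ (fun _ => Classical.propDecidable _)]
      exact h4
    have hcA : (Fintype.card (Fin n → Bool) : ℝ) ^ J.card = 2 ^ (n * J.card) := by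
      rw [Fintype.card_fun, Fintype.card_bool, Fintype.card_fin]
      push_cast
      rw [pow_mul]
    rw [hcA] at h3
    rw [arrays_eq]
    obtain ⟨w, hw⟩ : ∃ w : ℝ, w = (BoxL Z Y).card := ⟨_, rfl⟩
    have hw0 : 0 ≤ w := by rw [hw]; exact Nat.cast_nonneg _
    have hL0 : 0 < Real.log X := by linarith
    have h5 : |(((BoxL Z Y).filter (fun c => ∀ k ∈ J, sgs f c k = b k)).card : ℝ) - (BoxL Z Y).card / 2 ^ (n * J.card)| ≤
        1 / Real.log X ^ (A + 1) * w := by
      rw [hw, filter_inst (BoxL Z Y) (fun c => ∀ k ∈ J, sgs f c k = b k) _ (fun _ => Classical.propDecidable _)]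
      rw [filter_inst (BoxL Z Y) (fun c => ∀ k ∈ J, sgs f c k = b k) _ (fun _ => Classical.propDecidable _)] at h3
      exact h3
    rw [← hw] at hB h5 ⊢
    have h6 : 2 * (1 / Real.log X ^ (A + 1) * w) ≤ w / Real.log X ^ A := by
      rw [pow_succ]
      have e1 : 2 * (1 / (Real.log X ^ A * Real.log X) * w) = (w / Real.log X ^ A) * (2 / Real.log X) := by
        field_simp
      rw [e1]
      apply mul_le_of_le_one_right (by positivity)
      rw [div_le_one hL0]
      exact hL2
    have h7 : w / Real.log X ^ (A + 1) = 1 / Real.log X ^ (A + 1) * w := by ring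
    rw [h7] at hB
    have h8 := abs_le.1 h4'
    have h9 := abs_le.1 h5
    rw [abs_le]
    constructor <;> linarith [h8.1, h8.2, h9.1, h9.2]
  · intro n ε hε
    obtain ⟨d0, V0, h⟩ := lp_clt n (ε / 2) (by positivity)
    refine ⟨max d0 1, V0, ?_⟩
    intro C d hd
    have hd0 : d0 ≤ d := (le_max_left _ _).trans hd
    have hd1 : 1 ≤ d := (le_max_right _ _).trans hd
    obtain ⟨X0, hX0⟩ := eventually_atTop.1 ((h C d hd0).and ((bd_card n d 1 C hd1).and
      ((hpos C).and (ev_log_ge (2 / ε)))))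
    refine ⟨X0, ?_⟩
    intro X hX f Z Y S hsz g hg hV x
    obtain ⟨h1, h2, ⟨hL1, hXp⟩, hL2⟩ := hX0 X hX
    have hlz := sizes_lz hsz hXp
    have hB := h2 f Z Y S hsz.side hsz.arguments
    obtain ⟨V, hVd⟩ : ∃ V, V = ∑ k ∈ S, variance (g k) := ⟨_, rfl⟩
    rw [← hVd] at hV ⊢
    have hvr : ∀ k, vr (fun b : Fin n → Bool => g k (tr b)) = variance (g k) := by
      intro k
      unfold vr variance
      rw [sum_tr (fun e => g k e ^ 2), Fintype.card_fun, Fintype.card_bool, Fintype.card_fin]
      push_cast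
      rfl
    have h3 := h1 f Z Y S hsz.side hsz.arguments hlz (fun k b => g k (tr b)) (fun k b => hg.bound k _)
      (fun k => by rw [sum_tr (fun e => g k e)]; exact hg.mean k) V
      (by rw [hVd]; exact Finset.sum_congr rfl fun k _ => (hvr k).symm) hV x
    have h4 := card_cmp (BoxL Z Y) (Bd f Z Y S) (fun c => ∑ k ∈ S, g k (signs f c k) ≤ x * Real.sqrt V)
      (fun c => ∑ k ∈ S, g k (tr (sgs f c k)) ≤ x * Real.sqrt V) (by
      intro c hc hcb
      have h5 : ∑ k ∈ S, g k (tr (sgs f c k)) = ∑ k ∈ S, g k (signs f c k) := by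
        apply Finset.sum_congr rfl
        intro k hk
        rw [sgs_eq f Z Y S c hc hcb k hk]
        rfl
      rw [h5])
    rw [arrays_eq]
    have hYpos : ∀ i j, 1 ≤ Y i j := by
      intro i j
      have : (0 : ℝ) < Y i j := lt_of_lt_of_le hXp (hsz.side i j)
      exact_mod_cast this
    have hwpos : (0 : ℝ) < (BoxL Z Y).card := by exact_mod_cast (boxL_nonempty Z Y hYpos).card_pos
    obtain ⟨w, hw⟩ : ∃ w : ℝ, w = (BoxL Z Y).card := ⟨_, rfl⟩
    rw [← hw] at hB hwpos h3 ⊢
    have hPhi : Phi x = Pool.Agent.Q236.LP.Phi x := rfl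
    rw [hPhi]
    obtain ⟨u, hu⟩ : ∃ u : ℝ, u = (((BoxL Z Y).filter (fun c => ∑ k ∈ S, g k (tr (sgs f c k)) ≤ x * Real.sqrt V)).card : ℝ) := ⟨_, rfl⟩
    rw [← hu] at h3 h4
    have h5 : |u - Pool.Agent.Q236.LP.Phi x * w| ≤ ε / 2 * w := by
      have e1 : u - Pool.Agent.Q236.LP.Phi x * w = (u / w - Pool.Agent.Q236.LP.Phi x) * w := by
        field_simp
      rw [e1, abs_mul, abs_of_pos hwpos]
      exact mul_le_mul_of_nonneg_right h3 hwpos.le
    have h6 : w / Real.log X ^ 1 ≤ ε / 2 * w := by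
      have hL0 : 0 < Real.log X := by linarith
      rw [pow_one, div_le_iff₀ hL0]
      rw [div_le_iff₀ hε] at hL2
      nlinarith
    have h8 := abs_le.1 h4
    have h9 := abs_le.1 h5
    rw [abs_le]
    constructor <;> linarith [h8.1, h8.2, h9.1, h9.2]
  · intro n B D η hη
    obtain ⟨d0, h⟩ := lp_dev n (B + 1) D η hη
    refine ⟨max d0 1, ?_⟩
    intro C d hd
    have hd0 : d0 ≤ d := (le_max_left _ _).trans hd
    have hd1 : 1 ≤ d := (le_max_right _ _).trans hd
    obtain ⟨X0, hX0⟩ := eventually_atTop.1 ((h C d hd0).and ((bd_card n d (B + 1) C hd1).and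
      ((hpos C).and (ev_log_ge 2))))
    refine ⟨X0, ?_⟩
    intro X hX f Z Y S hsz hSD g hg
    obtain ⟨h1, h2, ⟨hL1, hXp⟩, hL2⟩ := hX0 X hX
    have hlz := sizes_lz hsz hXp
    have hB := h2 f Z Y S hsz.side hsz.arguments
    have h3 := h1 f Z Y S hsz.side hsz.arguments hlz (fun k b => g k (tr b)) (fun k b => hg.bound k _)
      (fun k => by rw [sum_tr (fun e => g k e)]; exact hg.mean k)
    rw [arrays_eq]
    obtain ⟨E, hE⟩ : ∃ E, E = (BoxL Z Y).filter (fun c => ∃ a q l : ℕ, (a : ℝ) ≤ Real.log X ^ D ∧ (q : ℝ) ≤ Real.log X ^ D ∧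
      (l : ℝ) ≤ 2 * Real.log X ^ D ∧ Real.log X ^ η * Real.sqrt l < |∑ k ∈ S ∩ AP a q l, g k (tr (sgs f c k))|) := ⟨_, rfl⟩
    rw [← hE] at h3
    have hsub : (BoxL Z Y).filter (fun c => ∃ a q l : ℕ,
        Real.sqrt l * Real.log X ^ η < |∑ k ∈ S ∩ Progression a q l, g k (signs f c k)|) ⊆ E ∪ Bd f Z Y S := by
      intro c hc
      rw [mem_filter] at hc
      obtain ⟨hcW, a, q, l, hbig⟩ := hc
      rw [mem_union]
      by_cases hcb : c ∈ Bd f Z Y S
      · right; exact hcb
      · left
        rw [hE, mem_filter]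
        obtain ⟨a', q', l', ha', hq', hl', hll, hS⟩ := ap_reduce S (Real.log X ^ D) (one_le_pow₀ hL1) hSD a q l
        refine ⟨hcW, a', q', l', ha', hq', hl', ?_⟩
        rw [hS] at hbig
        have h5 : ∑ k ∈ S ∩ AP a' q' l', g k (tr (sgs f c k)) = ∑ k ∈ S ∩ AP a' q' l', g k (signs f c k) := by
          apply Finset.sum_congr rfl
          intro k hk
          rw [sgs_eq f Z Y S c hcW hcb k (mem_inter.1 hk).1]
          rfl
        rw [h5]
        refine lt_of_le_of_lt ?_ hbig
        rw [mul_comm]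
        apply mul_le_mul_of_nonneg_right _ (by positivity)
        apply Real.sqrt_le_sqrt
        exact_mod_cast hll
    have h4 := (card_le_card hsub).trans (card_union_le _ _)
    have h5 : (((BoxL Z Y).filter (fun c => ∃ a q l : ℕ,
        Real.sqrt l * Real.log X ^ η < |∑ k ∈ S ∩ Progression a q l, g k (signs f c k)|)).card : ℝ) ≤ E.card + (Bd f Z Y S).card := by
      exact_mod_cast h4
    refine h5.trans ?_
    obtain ⟨w, hw⟩ : ∃ w : ℝ, w = (BoxL Z Y).card := ⟨_, rfl⟩
    have hw0 : 0 ≤ w := by rw [hw]; exact Nat.cast_nonneg _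
    rw [← hw] at hB h3 ⊢
    have hL0 : 0 < Real.log X := by linarith
    have h6 : 2 * (w / Real.log X ^ (B + 1)) ≤ w / Real.log X ^ B := by
      rw [pow_succ]
      have e1 : 2 * (w / (Real.log X ^ B * Real.log X)) = (w / Real.log X ^ B) * (2 / Real.log X) := by
        field_simp
      rw [e1]
      apply mul_le_of_le_one_right (by positivity)
      rw [div_le_one hL0]
      exact hL2
    linarith

end Pool.Agent.Results.MP_d639b3_nt.RandomSigns
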